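import Pool.Agent.helper87_dom.Tourn

set_option autoImplicit false

/-!
# If `H` is a rebel, so is `Δ(H, TT_j, TT_k)`

`TT_k` is the transitive tournament with `k` vertices, and `Δ(A, B, C)` consists of disjoint copies of `A`, `B`, `C` with
all arcs from `A` to `B`, from `B` to `C` and from `C` to `A`.
-/

namespace Pool.Agent.Results.MP_ead61c_co.ClosureTransitive

open Pool.Agent.helper87_dom

/-- If `H` is a rebel, then `Δ(H, TT_j, TT_k)` is a rebel for all `j` and `k`. -/
theorem result (H : Tournament) (hH : Rebel H) (j k : ℕ) : Rebel (Delta H (TT j) (TT k)) :=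
  rebel_HTT hH j k

end Pool.Agent.Results.MP_ead61c_co.ClosureTransitive
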