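import Pool.Agent.helper87_dom.Tourn

set_option autoImplicit false

/-!
# The tournaments `Δ(S_m, S_n, TT_k)` are rebels

`S_1` is one vertex, `S_(t+1) = Δ(S_t, S_t, S_1)`, and `TT_k` is the transitive tournament with `k` vertices.
`Δ(A, B, C)` consists of disjoint copies of `A`, `B`, `C` with all arcs from `A` to `B`, from `B` to `C` and from `C` to
`A`.  The tournament `S_t` cannot be coloured with `t - 1` colours, so these rebels have unbounded chromatic number.

The proof is a potential argument on top of the theorem `main_aux` in `Pool/Agent/helper87_dom`: tournaments of large
domination number have sets `B` of bounded size such that every partition of `B` into two sets has `S_m` in the first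
or `S_n` in the second.  Among these `B` take one such that the number of the vertices `x` with `S_n` in `N^-(x) ∩ B` is as
large as possible.
-/

namespace Pool.Agent.Results.MP_ead61c_co.DeltaTransitive

open Pool.Agent.helper87_dom

/-- For all `m`, `n`, `k` the tournament `Δ(S_(m+1), S_(n+1), TT_k)` is a rebel (`S m` is the tournament `S_(m+1)`). -/
theorem result (m n k : ℕ) : Rebel (Delta (S m) (S n) (TT k)) := rebel_SST m n k

end Pool.Agent.Results.MP_ead61c_co.DeltaTransitive
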